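import Pool.Agent.H93.Tri.Lao
import Pool.Agent.H38.Tri.SLA

/-! Project TRI, module SL-4: bounds for the light and the heavy part. -/

set_option autoImplicit false

open MeasureTheory Set Complex Metric Filter Topology
open scoped Real ENNReal NNReal FourierTransform ComplexConjugate

namespace Pool.Agent.H24.Tri

/-- kernel bound for the pieces, uniform in the scale -/
theorem glp_kernel : ∃ C : ℝ, 1 ≤ C ∧ ∀ s : ℝ, 0 < s → ∀ n : ℂ,
    (∫ y, ‖𝓕⁻ (fun ξ => thetaC (ξ / s - n)) y‖) ≤ C := by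
  obtain ⟨C, hC0, hC, -⟩ := kernel_bounds thetaC nice_thetaC
  refine ⟨C + 1, by linarith, fun s hs n => ?_⟩
  have hs' : (s : ℂ) ≠ 0 := by exact_mod_cast hs.ne'
  have h1 : ∀ y, ‖𝓕⁻ (fun ξ => thetaC (ξ / s - n)) y‖ = s ^ 2 * ‖𝓕⁻ thetaC (s • y)‖ := by
    intro y
    rw [kernel_scaled thetaC nice_thetaC (s : ℂ) hs' n y, norm_mul, norm_mul,
      Complex.norm_exp_ofReal_mul_I, one_mul, Complex.norm_real, Complex.norm_real,
      Complex.conj_ofReal, Real.norm_of_nonneg hs.le, Real.norm_of_nonneg (by positivity),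
      Complex.real_smul]
  simp only [h1]
  rw [integral_const_mul, Measure.integral_comp_smul (volume : Measure ℂ)
    (fun y => ‖𝓕⁻ thetaC y‖) s, Complex.finrank_real_complex, smul_eq_mul,
    abs_of_pos (by positivity), ← mul_assoc, mul_inv_cancel₀ (by positivity), one_mul]
  linarith

/-- pieces are bounded and Lipschitz -/
theorem glp_pm (C₀ : ℝ) (hC₀ : 0 < C₀) : ∃ C : ℝ, 1 ≤ C ∧ ∀ K R : ℝ, 1 ≤ K → 0 < R →
    ∀ a : ℂ → ℂ, Adm C₀ R a → ∀ m : ℤ × ℤ, (∀ x, ‖pm K R a m x‖ ≤ C) ∧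
      ∀ x y, ‖pm K R a m x - pm K R a m y‖ ≤ C * R * ‖x - y‖ := by
  obtain ⟨C, hC1, hC⟩ := glp_kernel
  obtain ⟨L, hL1, hL⟩ := adm_lip C₀ hC₀
  have hCL : C ≤ C * L := le_mul_of_one_le_right (by linarith) hL1
  refine ⟨C * L, by linarith, fun K R hK hR a ha m => ?_⟩
  have hs : 0 < R / K := by positivity
  have hk := hC (R / K) hs (gi m)
  have hn := nice_thetaC_shift (R / K) hs (gi m)
  have hi : Integrable (𝓕⁻ fun ξ => thetaC (ξ / ((R / K : ℝ) : ℂ) - gi m)) :=
    (nice_integrable _ hn).2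
  have hgi : ∀ x, Integrable fun y =>
      𝓕⁻ (fun ξ => thetaC (ξ / ((R / K : ℝ) : ℂ) - gi m)) y * 𝓕⁻ a (x - y) := by
    intro x
    refine hi.mul_bdd (c := 1) ?_ (Filter.Eventually.of_forall fun y => ha.bound _)
    exact ((nice_continuous a ha.nice).comp (by fun_prop)).aestronglyMeasurable
  constructor
  · intro x
    rw [pm_eq K R hs a ha.nice m x]
    calc ‖∫ y, 𝓕⁻ (fun ξ => thetaC (ξ / ((R / K : ℝ) : ℂ) - gi m)) y * 𝓕⁻ a (x - y)‖
        ≤ ∫ y, ‖𝓕⁻ (fun ξ => thetaC (ξ / ((R / K : ℝ) : ℂ) - gi m)) y‖ * 1 := by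
          refine norm_integral_le_of_norm_le (hi.norm.mul_const 1)
            (Filter.Eventually.of_forall fun y => ?_)
          rw [norm_mul]
          exact mul_le_mul_of_nonneg_left (ha.bound _) (norm_nonneg _)
      _ ≤ C * L := by
          rw [integral_mul_const, mul_one]
          linarith
  · intro x y
    rw [pm_eq K R hs a ha.nice m x, pm_eq K R hs a ha.nice m y, ← integral_sub (hgi x) (hgi y)]
    calc ‖∫ z, (𝓕⁻ (fun ξ => thetaC (ξ / ((R / K : ℝ) : ℂ) - gi m)) z * 𝓕⁻ a (x - z) -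
          𝓕⁻ (fun ξ => thetaC (ξ / ((R / K : ℝ) : ℂ) - gi m)) z * 𝓕⁻ a (y - z))‖
        ≤ ∫ z, ‖𝓕⁻ (fun ξ => thetaC (ξ / ((R / K : ℝ) : ℂ) - gi m)) z‖ * (L * R * ‖x - y‖) := by
          refine norm_integral_le_of_norm_le (hi.norm.mul_const _)
            (Filter.Eventually.of_forall fun z => ?_)
          rw [← mul_sub, norm_mul]
          refine mul_le_mul_of_nonneg_left ?_ (norm_nonneg _)
          have h := hL R hR a ha (x - z) (y - z)
          rwa [sub_sub_sub_cancel_right] at h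
      _ ≤ C * L * R * ‖x - y‖ := by
          rw [integral_mul_const]
          have h0 : 0 ≤ L * R * ‖x - y‖ := by positivity
          calc _ ≤ C * (L * R * ‖x - y‖) := mul_le_mul_of_nonneg_right hk h0
            _ = _ := by ring

theorem glp_psr_int {r : ℝ} (hr : 0 < r) (x : ℂ) : Integrable fun t => psr r (x - t) ^ 2 := by
  have hc : Continuous fun t => psr r (x - t) ^ 2 :=
    ((psr_smooth r).continuous.comp (continuous_const.sub continuous_id)).pow 2
  refine hc.integrable_of_hasCompactSupport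
    (HasCompactSupport.intro (isCompact_closedBall x r) fun z hz => ?_)
  rw [mem_closedBall, not_le, dist_comm, dist_eq_norm] at hz
  rw [psr_zero hr _ hz.le]
  norm_num

theorem glp_psr_one {r : ℝ} (hr : 0 < r) (x : ℂ) : ∫ t, psr r (x - t) ^ 2 = 1 := by
  rw [integral_sub_left_eq_self (fun t => psr r t ^ 2) volume x]
  exact psr_sq_integral hr

/-- `L¹` modulus of continuity of `psr r ^ 2` -/
theorem glp_psr_mod (r : ℝ) (hr : 0 < r) : ∃ C : ℝ, 0 ≤ C ∧ ∀ x y : ℂ,
    ∫ t, |psr r (x - t) ^ 2 - psr r (y - t) ^ 2| ≤ C * ‖x - y‖ := by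
  obtain ⟨C₁, h10, h1⟩ := psr_lip
  obtain ⟨C₂, h20, h2⟩ := psr_le
  set L : ℝ := C₁ / r ^ 2 * (2 * (C₂ / r)) with hL
  have hL0 : 0 ≤ L := by positivity
  set V : ℝ := volume.real (closedBall (0 : ℂ) r) with hV
  refine ⟨L * (2 * V), by positivity, fun x y => ?_⟩
  have hlip : ∀ t : ℂ, |psr r (x - t) ^ 2 - psr r (y - t) ^ 2| ≤ L * ‖x - y‖ := fun t => by
    have e : psr r (x - t) ^ 2 - psr r (y - t) ^ 2 =
      (psr r (x - t) - psr r (y - t)) * (psr r (x - t) + psr r (y - t)) := by ring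
    rw [e, abs_mul]
    have a1 := h1 r hr (x - t) (y - t)
    rw [sub_sub_sub_cancel_right] at a1
    have a2 : |psr r (x - t) + psr r (y - t)| ≤ 2 * (C₂ / r) := by
      rw [abs_of_nonneg (add_nonneg (psr_nonneg hr _) (psr_nonneg hr _))]
      linarith [h2 r hr (x - t), h2 r hr (y - t)]
    calc _ ≤ (C₁ / r ^ 2 * ‖x - y‖) * (2 * (C₂ / r)) := by gcongr
      _ = L * ‖x - y‖ := by rw [hL]; ring
  have hind : ∀ z : ℂ, Integrable ((closedBall z r).indicator fun _ : ℂ => (1 : ℝ)) := fun z => by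
    rw [integrable_indicator_iff measurableSet_closedBall]
    exact integrableOn_const (by exact measure_closedBall_lt_top.ne)
  have hindv : ∀ z : ℂ, ∫ t, (closedBall z r).indicator (fun _ : ℂ => (1 : ℝ)) t = V := fun z => by
    rw [integral_indicator_const _ measurableSet_closedBall, smul_eq_mul, mul_one, hV,
      Measure.real, Measure.real, Measure.addHaar_closedBall_center]
  calc ∫ t, |psr r (x - t) ^ 2 - psr r (y - t) ^ 2|
      ≤ ∫ t, L * ‖x - y‖ * ((closedBall x r).indicator (fun _ : ℂ => (1 : ℝ)) t +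
        (closedBall y r).indicator (fun _ : ℂ => (1 : ℝ)) t) := by
        refine integral_mono (((glp_psr_int hr x).sub (glp_psr_int hr y)).abs)
          (((hind x).add (hind y)).const_mul _) fun t => ?_
        simp only
        have i0 : ∀ z : ℂ, 0 ≤ (closedBall z r).indicator (fun _ : ℂ => (1 : ℝ)) t := fun z =>
          Set.indicator_nonneg (fun _ _ => zero_le_one) _
        have hn : 0 ≤ L * ‖x - y‖ := by positivity
        by_cases hx : t ∈ closedBall x r
        · rw [Set.indicator_of_mem hx]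
          have := hlip t
          nlinarith [i0 y]
        by_cases hy : t ∈ closedBall y r
        · rw [Set.indicator_of_mem hy]
          have := hlip t
          nlinarith [i0 x]
        have zx : psr r (x - t) = 0 := by
          apply psr_zero hr
          rw [mem_closedBall, not_le, dist_comm, dist_eq_norm] at hx
          exact hx.le
        have zy : psr r (y - t) = 0 := by
          apply psr_zero hr
          rw [mem_closedBall, not_le, dist_comm, dist_eq_norm] at hy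
          exact hy.le
        rw [zx, zy]
        simp only [sub_self, abs_zero]
        exact mul_nonneg hn (add_nonneg (i0 x) (i0 y))
    _ = L * (2 * V) * ‖x - y‖ := by
        rw [integral_const_mul, integral_add (hind x) (hind y), hindv, hindv]
        ring

theorem glp_wint {r : ℝ} (hr : 0 < r) (I : ℂ → ℝ) (hm : Measurable I) (h0 : ∀ t, 0 ≤ I t)
    (h1 : ∀ t, I t ≤ 1) (x : ℂ) : Integrable fun t => psr r (x - t) ^ 2 * I t := by
  refine (glp_psr_int hr x).mul_bdd (c := 1) hm.aestronglyMeasurable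
    (Filter.Eventually.of_forall fun t => ?_)
  rw [Real.norm_of_nonneg (h0 t)]
  exact h1 t

/-- sums of averaged weights -/
theorem glp_sum (r : ℝ) (hr : 0 < r) : ∃ C : ℝ, 0 ≤ C ∧ ∀ (M : Finset (ℤ × ℤ))
    (I : ℤ × ℤ → ℂ → ℝ), (∀ m, Measurable (I m)) → (∀ m t, 0 ≤ I m t) → (∀ m t, I m t ≤ 1) →
    ∀ J : ℝ, (∀ t, ∑ m ∈ M, I m t ≤ J) →
      (∀ x, ∑ m ∈ M, (∫ t, psr r (x - t) ^ 2 * I m t) ≤ J) ∧
      (∀ x y, ∑ m ∈ M, |(∫ t, psr r (x - t) ^ 2 * I m t) - ∫ t, psr r (y - t) ^ 2 * I m t| ≤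
        J * (C * ‖x - y‖)) := by
  obtain ⟨C, hC0, hC⟩ := glp_psr_mod r hr
  refine ⟨C, hC0, fun M I hm h0 h1 J hJ => ?_⟩
  have hJ0 : 0 ≤ J := (Finset.sum_nonneg fun m _ => h0 m 0).trans (hJ 0)
  have hint : ∀ x m, Integrable fun t => psr r (x - t) ^ 2 * I m t := fun x m =>
    glp_wint hr (I m) (hm m) (h0 m) (h1 m) x
  constructor
  · intro x
    rw [← integral_finsetSum _ fun m _ => hint x m]
    calc ∫ t, ∑ m ∈ M, psr r (x - t) ^ 2 * I m t ≤ ∫ t, psr r (x - t) ^ 2 * J := by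
          refine integral_mono (integrable_finsetSum _ fun m _ => hint x m)
            ((glp_psr_int hr x).mul_const J) fun t => ?_
          simp only
          rw [← Finset.mul_sum]
          exact mul_le_mul_of_nonneg_left (hJ t) (sq_nonneg _)
      _ = J := by rw [integral_mul_const, glp_psr_one hr, one_mul]
  · intro x y
    have hd : ∀ m, Integrable fun t => |psr r (x - t) ^ 2 - psr r (y - t) ^ 2| * I m t := fun m => by
      have h := ((hint x m).sub (hint y m)).abs
      refine h.congr (Filter.Eventually.of_forall fun t => ?_)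
      simp only [Pi.sub_apply]
      rw [← sub_mul, abs_mul, abs_of_nonneg (h0 m t)]
    calc ∑ m ∈ M, |(∫ t, psr r (x - t) ^ 2 * I m t) - ∫ t, psr r (y - t) ^ 2 * I m t|
        ≤ ∑ m ∈ M, ∫ t, |psr r (x - t) ^ 2 - psr r (y - t) ^ 2| * I m t := by
          refine Finset.sum_le_sum fun m _ => ?_
          rw [← integral_sub (hint x m) (hint y m)]
          refine (abs_integral_le_integral_abs).trans (le_of_eq ?_)
          congr 1
          ext t
          rw [← sub_mul, abs_mul, abs_of_nonneg (h0 m t)]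
      _ = ∫ t, ∑ m ∈ M, |psr r (x - t) ^ 2 - psr r (y - t) ^ 2| * I m t := by
          rw [integral_finsetSum _ fun m _ => hd m]
      _ ≤ ∫ t, |psr r (x - t) ^ 2 - psr r (y - t) ^ 2| * J := by
          refine integral_mono (integrable_finsetSum _ fun m _ => hd m)
            ((((glp_psr_int hr x).sub (glp_psr_int hr y)).abs).mul_const J) fun t => ?_
          simp only
          rw [← Finset.mul_sum]
          exact mul_le_mul_of_nonneg_left (hJ t) (abs_nonneg _)
      _ ≤ J * (C * ‖x - y‖) := by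
          rw [integral_mul_const, mul_comm]
          exact mul_le_mul_of_nonneg_left (hC x y) hJ0

/-- SL-4: bounds for the light and the heavy part -/
theorem gl_lip (C₀ : ℝ) (hC₀ : 0 < C₀) : ∀ th : ℝ, 0 < th → th ≤ 1 → ∃ CG : ℝ, 1 ≤ CG ∧
    ∀ K r : ℝ, 1 ≤ K → 0 < r → ∃ R₀ : ℝ, 1 ≤ R₀ ∧ ∀ R : ℝ, R₀ ≤ R → ∀ a : ℂ → ℂ, Adm C₀ R a →
      ContDiff ℝ ((⊤ : ℕ∞) : WithTop ℕ∞) (gl C₀ K R r th a) ∧
      ContDiff ℝ ((⊤ : ℕ∞) : WithTop ℕ∞) (gh C₀ K R r th a) ∧
      (∀ x, ‖gl C₀ K R r th a x‖ ≤ CG) ∧ (∀ x, ‖gh C₀ K R r th a x‖ ≤ CG) ∧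
      (∀ x y, ‖gl C₀ K R r th a x - gl C₀ K R r th a y‖ ≤ CG * R * ‖x - y‖) ∧
      (∀ x y, ‖gh C₀ K R r th a x - gh C₀ K R r th a y‖ ≤ CG * R * ‖x - y‖) := by
  intro th hth _
  obtain ⟨C, hC1, hC⟩ := glp_pm C₀ hC₀
  obtain ⟨L, hL1, hL⟩ := adm_lip C₀ hC₀
  set J : ℝ := 3 / th with hJ
  have hJ0 : 0 < J := by positivity
  have hCJ : 0 < C * J := mul_pos (by linarith) hJ0
  refine ⟨L + 1 + 2 * C * J, by linarith, fun K r hK hr => ?_⟩
  obtain ⟨Cr, hCr0, hCr⟩ := glp_sum r hr
  obtain ⟨R₁, hR₁, hcard⟩ := hset_card C₀ hC₀ K r hK hr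
  refine ⟨max R₁ Cr, hR₁.trans (le_max_left _ _), fun R hR a ha => ?_⟩
  have hRR : R₁ ≤ R := (le_max_left _ _).trans hR
  have hRC : Cr ≤ R := (le_max_right _ _).trans hR
  have hR0 : 0 < R := by linarith
  have hwf := fun m => wt_facts K R r th hR0 hK hr a ha.nice m
  classical
  set I : ℤ × ℤ → ℂ → ℝ := fun m t => if th ≤ mass r (pm K R a m) t then 1 else 0 with hI
  have hIm : ∀ m, Measurable (I m) := fun m => by
    have hc : Continuous fun t => mass r (pm K R a m) t := (hwf m).2.2.2.2.2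
    exact Measurable.ite (measurableSet_le measurable_const hc.measurable)
      measurable_const measurable_const
  have hI0 : ∀ m t, 0 ≤ I m t := fun m t => by
    simp only [hI]
    split_ifs <;> norm_num
  have hI1 : ∀ m t, I m t ≤ 1 := fun m t => by
    simp only [hI]
    split_ifs <;> norm_num
  have hIJ : ∀ t, ∑ m ∈ mbox (bx C₀ K), I m t ≤ J := fun t => by
    have h1 : ∑ m ∈ mbox (bx C₀ K), I m t = ((hset C₀ K R r th a t).card : ℝ) := by
      simp only [hI]
      rw [Finset.sum_ite, Finset.sum_const_zero, add_zero, Finset.sum_const, nsmul_eq_mul, mul_one,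
        hset]
    rw [h1, hJ, le_div_iff₀ hth]
    exact hcard R hRR a ha th hth t
  obtain ⟨hs1, hs2⟩ := hCr (mbox (bx C₀ K)) I hIm hI0 hI1 J hIJ
  have hwt_eq : ∀ m x, hwt K R r th a m x = ∫ t, psr r (x - t) ^ 2 * I m t := fun m x => by
    rw [hwt]
  have hw0 : ∀ m x, 0 ≤ hwt K R r th a m x := fun m x => (hwf m).1 x
  have hsum1 : ∀ x, ∑ m ∈ mbox (bx C₀ K), hwt K R r th a m x ≤ J := fun x => by
    simp only [hwt_eq]
    exact hs1 x
  have hsum2 : ∀ x y, ∑ m ∈ mbox (bx C₀ K), |hwt K R r th a m x - hwt K R r th a m y| ≤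
      J * (Cr * ‖x - y‖) := fun x y => by
    simp only [hwt_eq]
    exact hs2 x y
  have hpb : ∀ m x, ‖pm K R a m x‖ ≤ C := fun m x => (hC K R hK hR0 a ha m).1 x
  have hpl : ∀ m x y, ‖pm K R a m x - pm K R a m y‖ ≤ C * R * ‖x - y‖ := fun m x y =>
    (hC K R hK hR0 a ha m).2 x y
  have hghb : ∀ x, ‖gh C₀ K R r th a x‖ ≤ C * J := fun x => by
    rw [gh]
    calc _ ≤ ∑ m ∈ mbox (bx C₀ K), ‖(hwt K R r th a m x : ℂ) * pm K R a m x‖ := norm_sum_le _ _
      _ ≤ ∑ m ∈ mbox (bx C₀ K), hwt K R r th a m x * C := by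
          refine Finset.sum_le_sum fun m _ => ?_
          rw [norm_mul, Complex.norm_real, Real.norm_of_nonneg (hw0 m x)]
          exact mul_le_mul_of_nonneg_left (hpb m x) (hw0 m x)
      _ ≤ C * J := by
          rw [← Finset.sum_mul, mul_comm]
          exact mul_le_mul_of_nonneg_left (hsum1 x) (by linarith)
  have hghl : ∀ x y, ‖gh C₀ K R r th a x - gh C₀ K R r th a y‖ ≤ 2 * C * J * R * ‖x - y‖ :=
    fun x y => by
    have e : gh C₀ K R r th a x - gh C₀ K R r th a y = ∑ m ∈ mbox (bx C₀ K),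
        (((hwt K R r th a m x - hwt K R r th a m y : ℝ) : ℂ) * pm K R a m x +
          (hwt K R r th a m y : ℂ) * (pm K R a m x - pm K R a m y)) := by
      rw [gh, gh, ← Finset.sum_sub_distrib]
      refine Finset.sum_congr rfl fun m _ => ?_
      push_cast
      ring
    rw [e]
    calc _ ≤ ∑ m ∈ mbox (bx C₀ K),
          ‖((hwt K R r th a m x - hwt K R r th a m y : ℝ) : ℂ) * pm K R a m x +
          (hwt K R r th a m y : ℂ) * (pm K R a m x - pm K R a m y)‖ := norm_sum_le _ _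
      _ ≤ ∑ m ∈ mbox (bx C₀ K), (|hwt K R r th a m x - hwt K R r th a m y| * C +
          hwt K R r th a m y * (C * R * ‖x - y‖)) := by
          refine Finset.sum_le_sum fun m _ => (norm_add_le _ _).trans (add_le_add ?_ ?_)
          · rw [norm_mul, Complex.norm_real, Real.norm_eq_abs]
            exact mul_le_mul_of_nonneg_left (hpb m x) (abs_nonneg _)
          · rw [norm_mul, Complex.norm_real, Real.norm_of_nonneg (hw0 m y)]
            exact mul_le_mul_of_nonneg_left (hpl m x y) (hw0 m y)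
      _ = C * (∑ m ∈ mbox (bx C₀ K), |hwt K R r th a m x - hwt K R r th a m y|) +
          (∑ m ∈ mbox (bx C₀ K), hwt K R r th a m y) * (C * R * ‖x - y‖) := by
          rw [Finset.sum_add_distrib, ← Finset.sum_mul, ← Finset.sum_mul, mul_comm]
      _ ≤ C * (J * (R * ‖x - y‖)) + J * (C * R * ‖x - y‖) := by
          have h1 := hsum2 x y
          have h2 := hsum1 y
          have h3 : J * (Cr * ‖x - y‖) ≤ J * (R * ‖x - y‖) := by gcongr
          have hCp : 0 ≤ C := by linarith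
          have h5 : 0 ≤ C * R * ‖x - y‖ := by positivity
          exact add_le_add (mul_le_mul_of_nonneg_left (h1.trans h3) hCp)
            (mul_le_mul_of_nonneg_right h2 h5)
      _ = 2 * C * J * R * ‖x - y‖ := by ring
  have hgl : ∀ x, gl C₀ K R r th a x = 𝓕⁻ a x - gh C₀ K R r th a x := fun x => by
    rw [← gh_add_gl C₀ K R r th hC₀ hK hR0 hr a ha x]
    ring
  have hCp : 0 ≤ C * J := by positivity
  refine ⟨?_, ?_, fun x => ?_, fun x => (hghb x).trans (by linarith), fun x y => ?_,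
    fun x y => (hghl x y).trans ?_⟩
  · unfold gl
    refine ContDiff.sum fun m _ => ContDiff.mul ?_ (pm_smooth K R a ha.nice m)
    exact Complex.ofRealCLM.contDiff.comp (hwf m).2.2.2.2.1
  · unfold gh
    refine ContDiff.sum fun m _ => ContDiff.mul ?_ (pm_smooth K R a ha.nice m)
    exact Complex.ofRealCLM.contDiff.comp (hwf m).2.2.2.1
  · rw [hgl]
    refine (norm_sub_le _ _).trans ?_
    linarith [ha.bound x, hghb x]
  · rw [hgl, hgl]
    have e : 𝓕⁻ a x - gh C₀ K R r th a x - (𝓕⁻ a y - gh C₀ K R r th a y) =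
      (𝓕⁻ a x - 𝓕⁻ a y) - (gh C₀ K R r th a x - gh C₀ K R r th a y) := by ring
    rw [e]
    refine (norm_sub_le _ _).trans ?_
    have h1 := hL R hR0 a ha x y
    have h2 := hghl x y
    have h3 : 0 ≤ R * ‖x - y‖ := by positivity
    linarith
  · have h3 : 0 ≤ R * ‖x - y‖ := by positivity
    have h4 : 0 ≤ L * (R * ‖x - y‖) := by positivity
    linarith

end Pool.Agent.H24.Tri
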