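import Pool.Agent.H24.Tri.DefsLoc
import Pool.Agent.H24.Tri.ToolA
import Pool.Agent.H24.Tri.ToolB
import Pool.Agent.H38.Tri.Far

/-! Project TRI, module SL-3: almost orthogonality of the frequency pieces (LEMMA LAO). -/

set_option autoImplicit false

open MeasureTheory Set Complex Metric Filter Topology
open scoped Real ENNReal NNReal FourierTransform ComplexConjugate

namespace Pool.Agent.H24.Tri

/-- the complex valued tent -/
noncomputable def thetaC (x : ℂ) : ℂ := (theta x : ℂ)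

theorem nice_thetaC : Nice thetaC where
  smooth := Complex.ofRealCLM.contDiff.comp theta_smooth
  compact := theta_compact.comp_left (g := fun x : ℝ => (x : ℂ)) Complex.ofReal_zero

theorem nice_thetaC_shift (s : ℝ) (hs : 0 < s) (n : ℂ) : Nice (fun ξ => thetaC (ξ / s - n)) where
  smooth := nice_thetaC.smooth.comp ((contDiff_id.div_const _).sub contDiff_const)
  compact := by
    refine HasCompactSupport.intro (isCompact_closedBall (0 : ℂ) (s * (2 + ‖n‖))) fun z hz => ?_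
    rw [mem_closedBall_zero_iff, not_le] at hz
    rw [thetaC, theta_zero, Complex.ofReal_zero]
    have h1 : ‖z / s‖ = ‖z‖ / s := by
      rw [norm_div, Complex.norm_real, Real.norm_of_nonneg hs.le]
    have h2 : 2 + ‖n‖ ≤ ‖z / s‖ := by
      rw [h1, le_div_iff₀ hs]
      linarith
    have h3 := norm_sub_norm_le (z / s) n
    linarith

theorem piece_eq (s : ℝ) (m : ℤ × ℤ) (a : ℂ → ℂ) :
    piece 1 s m a = fun ξ => thetaC (ξ / s - gi m) * a ξ := by
  ext ξ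
  rw [piece, sym, one_mul, thetaC]

theorem theta_sq_sum_le (x : ℂ) (s : Finset (ℤ × ℤ)) : ∑ n ∈ s, theta (x - gi n) ^ 2 ≤ 1 := by
  set B : Finset (ℤ × ℤ) :=
    ({⌊x.re⌋, ⌊x.re⌋ + 1} : Finset ℤ) ×ˢ ({⌊x.im⌋, ⌊x.im⌋ + 1} : Finset ℤ) with hB
  have hz : ∀ n, n ∉ B → theta (x - gi n) = 0 := by
    intro n hn
    rw [hB, Finset.mem_product, not_and_or] at hn
    rw [theta, Complex.sub_re, Complex.sub_im, gi_re, gi_im]
    rcases hn with hn | hn
    · simp only [Finset.mem_insert, Finset.mem_singleton, not_or] at hn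
      rw [th_int_zero _ _ hn.1 hn.2, zero_mul]
    · simp only [Finset.mem_insert, Finset.mem_singleton, not_or] at hn
      rw [th_int_zero _ _ hn.1 hn.2, mul_zero]
  have h1 := theta_sum x (s ∪ B) fun n hn => by
    by_contra h
    exact hn (hz n fun hh => h (Finset.mem_union_right _ hh))
  calc ∑ n ∈ s, theta (x - gi n) ^ 2 ≤ ∑ n ∈ s, theta (x - gi n) := by
        refine Finset.sum_le_sum fun n _ => ?_
        have h2 := theta_nonneg (x - gi n)
        have h3 := theta_le_one (x - gi n)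
        nlinarith
    _ ≤ ∑ n ∈ s ∪ B, theta (x - gi n) :=
        Finset.sum_le_sum_of_subset_of_nonneg Finset.subset_union_left
          fun n _ _ => theta_nonneg _
    _ = 1 := h1

/-- the convolution with a kernel, as a Schwartz function -/
noncomputable def laoP (m : ℂ → ℂ) (hm : Nice m) (q : SchwartzMap ℂ ℂ) : SchwartzMap ℂ ℂ :=
  SchwartzMap.convolution (ContinuousLinearMap.mul ℂ ℂ) (𝓕⁻ (tbS m hm)) q

theorem laoP_apply (m : ℂ → ℂ) (hm : Nice m) (q : SchwartzMap ℂ ℂ) (x : ℂ) :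
    laoP m hm q x = ∫ y, 𝓕⁻ m y * q (x - y) := by
  have h := SchwartzMap.convolution_apply (ContinuousLinearMap.mul ℂ ℂ)
    (𝓕⁻ (tbS m hm)) q x
  rw [laoP, h, MeasureTheory.convolution_def]
  simp only [ContinuousLinearMap.mul_apply', tbS_inv]

theorem laoP_sq (m : ℂ → ℂ) (hm : Nice m) (q : SchwartzMap ℂ ℂ) :
    ∫ x, ‖laoP m hm q x‖ ^ 2 = ∫ ξ, ‖m ξ‖ ^ 2 * ‖(𝓕 q : SchwartzMap ℂ ℂ) ξ‖ ^ 2 := by
  have h := SchwartzMap.integral_norm_sq_fourier (laoP m hm q)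
  have h4 := SchwartzMap.fourier_convolution (ContinuousLinearMap.mul ℂ ℂ)
      (𝓕⁻ (tbS m hm)) q
  rw [FourierTransform.fourier_fourierInv_eq] at h4
  rw [← h, laoP, h4]
  congr 1
  ext ξ
  rw [SchwartzMap.pairing_apply_apply]
  simp only [ContinuousLinearMap.mul_apply', tbS_coe, norm_mul, mul_pow]

theorem lao_int (m : ℂ → ℂ) (hm : Nice m) (hb : ∀ ξ, ‖m ξ‖ ≤ 1) (q : SchwartzMap ℂ ℂ) :
    Integrable fun ξ => ‖m ξ‖ ^ 2 * ‖(𝓕 q : SchwartzMap ℂ ℂ) ξ‖ ^ 2 := by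
  have h1 : Integrable fun ξ => ‖(𝓕 q : SchwartzMap ℂ ℂ) ξ‖ ^ 2 :=
    ((𝓕 q : SchwartzMap ℂ ℂ).memLp 2 volume).integrable_norm_pow (by norm_num)
  refine h1.mono' ?_ (Filter.Eventually.of_forall fun ξ => ?_)
  · exact ((hm.smooth.continuous.norm.pow 2).mul
      ((SchwartzMap.continuous _).norm.pow 2)).aestronglyMeasurable
  · rw [Real.norm_of_nonneg (by positivity)]
    exact mul_le_of_le_one_left (sq_nonneg _) (pow_le_one₀ (norm_nonneg _) (hb ξ))

theorem lao_sum (s : ℝ) (hs : 0 < s) (M : Finset (ℤ × ℤ)) (q : SchwartzMap ℂ ℂ) :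
    ∑ m ∈ M, ∫ x, ‖laoP _ (nice_thetaC_shift s hs (gi m)) q x‖ ^ 2 ≤ ∫ x, ‖q x‖ ^ 2 := by
  have hb : ∀ (m : ℤ × ℤ) (ξ : ℂ), ‖thetaC (ξ / s - gi m)‖ ≤ 1 := fun m ξ => by
    rw [thetaC, Complex.norm_real, Real.norm_of_nonneg (theta_nonneg _)]
    exact theta_le_one _
  have h1 : ∀ m ∈ M, ∫ x, ‖laoP _ (nice_thetaC_shift s hs (gi m)) q x‖ ^ 2 =
      ∫ ξ, ‖thetaC (ξ / s - gi m)‖ ^ 2 * ‖(𝓕 q : SchwartzMap ℂ ℂ) ξ‖ ^ 2 :=
    fun m _ => laoP_sq _ _ q
  rw [Finset.sum_congr rfl h1, ← integral_finsetSum]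
  · rw [← SchwartzMap.integral_norm_sq_fourier q]
    refine integral_mono ?_ ?_ fun ξ => ?_
    · exact integrable_finsetSum _ fun m _ => lao_int _ (nice_thetaC_shift s hs (gi m)) (hb m) q
    · exact ((𝓕 q : SchwartzMap ℂ ℂ).memLp 2 volume).integrable_norm_pow (by norm_num)
    · simp only
      rw [← Finset.sum_mul]
      refine mul_le_of_le_one_left (sq_nonneg _) ?_
      have h2 : ∀ m ∈ M, ‖thetaC (ξ / s - gi m)‖ ^ 2 = theta (ξ / s - gi m) ^ 2 := fun m _ => by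
        rw [thetaC, Complex.norm_real, Real.norm_of_nonneg (theta_nonneg _)]
      rw [Finset.sum_congr rfl h2]
      exact theta_sq_sum_le _ _
  · exact fun m _ => lao_int _ (nice_thetaC_shift s hs (gi m)) (hb m) q

theorem pm_eq (K R : ℝ) (hs : 0 < R / K) (a : ℂ → ℂ) (ha : Nice a) (m : ℤ × ℤ) (x : ℂ) :
    pm K R a m x = ∫ y, 𝓕⁻ (fun ξ => thetaC (ξ / ((R / K : ℝ) : ℂ) - gi m)) y * 𝓕⁻ a (x - y) := by
  rw [pm, piece_eq]
  exact mult_conv _ a (nice_thetaC_shift _ hs (gi m)) ha x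

theorem nice_inv_smooth (a : ℂ → ℂ) (ha : Nice a) :
    ContDiff ℝ ((⊤ : ℕ∞) : WithTop ℕ∞) (𝓕⁻ a) := by
  rw [← tbS_inv a ha]
  exact SchwartzMap.smooth' _

theorem pm_smooth (K R : ℝ) (a : ℂ → ℂ) (ha : Nice a) (m : ℤ × ℤ) :
    ContDiff ℝ ((⊤ : ℕ∞) : WithTop ℕ∞) (pm K R a m) :=
  nice_inv_smooth _ (nice_piece _ _ _ _ ha)

theorem psr_shift_smooth (r : ℝ) (t : ℂ) :
    ContDiff ℝ ((⊤ : ℕ∞) : WithTop ℕ∞) (fun x => psr r (x - t)) :=
  (psr_smooth r).comp (contDiff_id.sub contDiff_const)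

theorem psr_shift_compact {r : ℝ} (hr : 0 < r) (t : ℂ) :
    HasCompactSupport (fun x => psr r (x - t)) := by
  refine HasCompactSupport.intro (isCompact_closedBall t r) fun z hz => psr_zero hr _ ?_
  rw [mem_closedBall, not_le, dist_eq_norm] at hz
  exact hz.le

theorem psr_shift_grad (r : ℝ) (t : ℂ) :
    ∫ x, ‖fderiv ℝ (fun x => psr r (x - t)) x‖ ^ 2 = ∫ x, ‖fderiv ℝ (psr r) x‖ ^ 2 := by
  have h : ∀ x, fderiv ℝ (fun x => psr r (x - t)) x = fderiv ℝ (psr r) (x - t) := fun x => by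
    rw [fderiv_comp_sub]
  simp only [h]
  exact integral_sub_right_eq_self (fun x => ‖fderiv ℝ (psr r) x‖ ^ 2) t

/-- the local mass of one piece -/
theorem lao_mass (r : ℝ) (hr : 0 < r) (C : ℝ)
    (hC : ∀ s : ℝ, 0 < s → ∀ (n : ℂ) (p : ℂ → ℂ),
      Measurable p → ∀ B : ℝ, (∀ x, ‖p x‖ ≤ B) →
      ∀ w : ℂ → ℝ, ContDiff ℝ 1 w → HasCompactSupport w →
      (∫ x, ‖(∫ y, 𝓕⁻ (fun ξ => thetaC (ξ / s - n)) y * ((w (x - y) : ℂ) * p (x - y))) -
        (w x : ℂ) * ∫ y, 𝓕⁻ (fun ξ => thetaC (ξ / s - n)) y * p (x - y)‖ ^ 2) ≤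
        (C * B / s) ^ 2 * ∫ x, ‖fderiv ℝ w x‖ ^ 2)
    (K R : ℝ) (hs : 0 < R / K) (a : ℂ → ℂ) (ha : Nice a) (hb : ∀ z, ‖𝓕⁻ a z‖ ≤ 1) (t : ℂ)
    (q : SchwartzMap ℂ ℂ) (hq : ∀ x, q x = (psr r (x - t) : ℂ) * 𝓕⁻ a x) (m : ℤ × ℤ) :
    mass r (pm K R a m) t ≤ 2 * (∫ x, ‖laoP _ (nice_thetaC_shift (R / K) hs (gi m)) q x‖ ^ 2) +
      2 * ((C / (R / K)) ^ 2 * ∫ x, ‖fderiv ℝ (psr r) x‖ ^ 2) := by
  set P := laoP _ (nice_thetaC_shift (R / K) hs (gi m)) q with hP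
  set W : ℂ → ℂ := fun x => (psr r (x - t) : ℂ) * pm K R a m x with hW
  have hWc : Continuous W :=
    (Complex.continuous_ofReal.comp (psr_shift_smooth r t).continuous).mul
      (pm_smooth K R a ha m).continuous
  have hWs : HasCompactSupport W :=
    ((psr_shift_compact hr t).comp_left (g := fun x : ℝ => (x : ℂ)) Complex.ofReal_zero).mul_right
  have hW2 : MemLp W 2 volume := hWc.memLp_of_hasCompactSupport hWs
  have hP2 : MemLp P 2 volume := P.memLp 2 volume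
  have hD2 : MemLp (fun x => P x - W x) 2 volume := hP2.sub hW2
  have e1 : ∫ x, ‖P x - W x‖ ^ 2 ≤ (C / (R / K)) ^ 2 * ∫ x, ‖fderiv ℝ (psr r) x‖ ^ 2 := by
    have h := hC (R / K) hs (gi m) (𝓕⁻ a) (nice_continuous a ha).measurable 1 hb
      (fun x => psr r (x - t)) ((psr_shift_smooth r t).of_le (by exact_mod_cast le_top))
      (psr_shift_compact hr t)
    rw [psr_shift_grad, mul_one] at h
    refine le_trans (le_of_eq ?_) h
    congr 1
    ext x
    rw [hP, laoP_apply, hW]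
    simp only [hq, pm_eq K R hs a ha m]
  have e2 : mass r (pm K R a m) t = ∫ x, ‖W x‖ ^ 2 := by
    rw [mass]
    congr 1
    ext x
    rw [hW]
    simp only [norm_mul, Complex.norm_real, Real.norm_eq_abs, mul_pow, sq_abs]
  rw [e2]
  have i1 : Integrable fun x => ‖P x‖ ^ 2 := hP2.integrable_norm_pow (by norm_num)
  have i2 : Integrable fun x => ‖P x - W x‖ ^ 2 := hD2.integrable_norm_pow (by norm_num)
  calc ∫ x, ‖W x‖ ^ 2 ≤ ∫ x, (2 * ‖P x‖ ^ 2 + 2 * ‖P x - W x‖ ^ 2) := by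
        refine integral_mono (hW2.integrable_norm_pow (by norm_num))
          ((i1.const_mul 2).add (i2.const_mul 2)) fun x => ?_
        simp only
        have h1 : ‖W x‖ ≤ ‖P x‖ + ‖P x - W x‖ := by
          calc ‖W x‖ = ‖P x - (P x - W x)‖ := by congr 1; ring
            _ ≤ _ := norm_sub_le _ _
        have h2 := norm_nonneg (W x)
        nlinarith [sq_nonneg (‖P x‖ - ‖P x - W x‖), norm_nonneg (P x), norm_nonneg (P x - W x)]
    _ = 2 * (∫ x, ‖P x‖ ^ 2) + 2 * ∫ x, ‖P x - W x‖ ^ 2 := by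
        rw [integral_add (i1.const_mul 2) (i2.const_mul 2), integral_const_mul, integral_const_mul]
    _ ≤ _ := by linarith

/-- SL-3: number of heavy pieces (LAO) -/
theorem lao (C₀ : ℝ) (hC₀ : 0 < C₀) : ∀ K r : ℝ, 1 ≤ K → 0 < r → ∃ R₀ : ℝ, 1 ≤ R₀ ∧
    ∀ R : ℝ, R₀ ≤ R → ∀ a : ℂ → ℂ, Adm C₀ R a → ∀ t : ℂ,
      ∑ m ∈ mbox (bx C₀ K), mass r (pm K R a m) t ≤ 3 := by
  intro K r hK hr
  obtain ⟨C, hC0, hC⟩ := comm thetaC nice_thetaC
  set G := ∫ x, ‖fderiv ℝ (psr r) x‖ ^ 2 with hG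
  have hG0 : 0 ≤ G := integral_nonneg fun _ => sq_nonneg _
  set T : ℝ := (mbox (bx C₀ K)).card * (2 * ((C * K) ^ 2 * G)) with hT
  have hT0 : 0 ≤ T := by positivity
  refine ⟨1 + T, by linarith, fun R hR a ha t => ?_⟩
  have hR1 : 1 ≤ R := by linarith
  have hs : 0 < R / K := by positivity
  have hqs : ContDiff ℝ ((⊤ : ℕ∞) : WithTop ℕ∞) (fun x => (psr r (x - t) : ℂ) * 𝓕⁻ a x) :=
    (Complex.ofRealCLM.contDiff.comp (psr_shift_smooth r t)).mul (nice_inv_smooth a ha.nice)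
  have hqc : HasCompactSupport (fun x => (psr r (x - t) : ℂ) * 𝓕⁻ a x) :=
    ((psr_shift_compact hr t).comp_left (g := fun x : ℝ => (x : ℂ)) Complex.ofReal_zero).mul_right
  set q : SchwartzMap ℂ ℂ := hqc.toSchwartzMap hqs with hq
  have hq' : ∀ x, q x = (psr r (x - t) : ℂ) * 𝓕⁻ a x := fun x => rfl
  have h1 : ∫ x, ‖q x‖ ^ 2 ≤ 1 := by
    rw [← psr_sq_integral hr, ← integral_sub_right_eq_self (fun x => psr r x ^ 2) t]
    refine integral_mono ((q.memLp 2 volume).integrable_norm_pow (by norm_num)) ?_ fun x => ?_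
    · have h2 : Continuous fun x => psr r (x - t) ^ 2 := (psr_shift_smooth r t).continuous.pow 2
      refine h2.integrable_of_hasCompactSupport ?_
      exact (psr_shift_compact hr t).comp_left (g := fun x : ℝ => x ^ 2) (by norm_num)
    · simp only [hq', norm_mul, Complex.norm_real, Real.norm_eq_abs, mul_pow, sq_abs]
      exact mul_le_of_le_one_right (sq_nonneg _) (pow_le_one₀ (norm_nonneg _) (ha.bound x))
  calc ∑ m ∈ mbox (bx C₀ K), mass r (pm K R a m) t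
      ≤ ∑ m ∈ mbox (bx C₀ K),
        (2 * (∫ x, ‖laoP _ (nice_thetaC_shift (R / K) hs (gi m)) q x‖ ^ 2) +
          2 * ((C / (R / K)) ^ 2 * G)) :=
        Finset.sum_le_sum fun m _ => lao_mass r hr C
          (fun s hs n p hp B hB w hw hw' => (hC s hs n p hp B hB w hw hw').2)
          K R hs a ha.nice ha.bound t q hq' m
    _ = 2 * (∑ m ∈ mbox (bx C₀ K), ∫ x, ‖laoP _ (nice_thetaC_shift (R / K) hs (gi m)) q x‖ ^ 2) +
          T / R ^ 2 := by
        rw [Finset.sum_add_distrib, ← Finset.mul_sum, Finset.sum_const, nsmul_eq_mul, hT]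
        congr 1
        field_simp
    _ ≤ 2 * 1 + 1 := by
        have h3 := (lao_sum (R / K) hs (mbox (bx C₀ K)) q).trans h1
        have h4 : T / R ^ 2 ≤ 1 := by
          rw [div_le_one (by positivity)]
          nlinarith
        linarith
    _ = 3 := by norm_num

theorem hset_card (C₀ : ℝ) (hC₀ : 0 < C₀) : ∀ K r : ℝ, 1 ≤ K → 0 < r → ∃ R₀ : ℝ, 1 ≤ R₀ ∧
    ∀ R : ℝ, R₀ ≤ R → ∀ a : ℂ → ℂ, Adm C₀ R a → ∀ th : ℝ, 0 < th → ∀ t : ℂ,
      ((hset C₀ K R r th a t).card : ℝ) * th ≤ 3 := by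
  intro K r hK hr
  obtain ⟨R₀, h1, h2⟩ := lao C₀ hC₀ K r hK hr
  refine ⟨R₀, h1, fun R hR a ha th hth t => ?_⟩
  have h3 : ∀ m, 0 ≤ mass r (pm K R a m) t := fun m => integral_nonneg fun x => by positivity
  calc ((hset C₀ K R r th a t).card : ℝ) * th
      = ∑ m ∈ hset C₀ K R r th a t, th := by rw [Finset.sum_const, nsmul_eq_mul]
    _ ≤ ∑ m ∈ hset C₀ K R r th a t, mass r (pm K R a m) t :=
        Finset.sum_le_sum fun m hm => by
          rw [hset, Finset.mem_filter] at hm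
          exact hm.2
    _ ≤ ∑ m ∈ mbox (bx C₀ K), mass r (pm K R a m) t :=
        Finset.sum_le_sum_of_subset_of_nonneg (Finset.filter_subset _ _) fun m _ _ => h3 m
    _ ≤ 3 := h2 R hR a ha t

end Pool.Agent.H24.Tri
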